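import Pool.Agent.H30.DomE

set_option autoImplicit false

namespace Pool.Agent.Results.MP_84cfc0_co.Squarish

/-- Q2: the number of domino tilings of the `2n × 2n` square with the staircase intrusion of
length `m` is a perfect square or twice a perfect square. -/
theorem result :
    ∀ n m : ℕ, 1 ≤ n → m ≤ 2 * n - 1 →
      ∀ R : Set (ℕ × ℕ),
        R = {p : ℕ × ℕ | p.1 < 2 * n ∧ p.2 < 2 * n ∧
              ¬ ∃ i : ℕ, i < m ∧ p.1 = i ∧ (p.2 = i ∨ p.2 = i + 1)} →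
        ∀ T : ℕ,
          T = Nat.card {f : R → R // ∀ x : R, f (f x) = x ∧
            ((x.1.1 = (f x).1.1 ∧ (x.1.2 + 1 = (f x).1.2 ∨ (f x).1.2 + 1 = x.1.2)) ∨
             (x.1.2 = (f x).1.2 ∧ (x.1.1 + 1 = (f x).1.1 ∨ (f x).1.1 + 1 = x.1.1)))} →
          ∃ k : ℕ, T = k ^ 2 ∨ T = 2 * k ^ 2 := by
  intro n m hn hm R hR T hT
  subst hR hT
  exact Pool.Agent.H30.Dom.main_all n m hn (by omega)

end Pool.Agent.Results.MP_84cfc0_co.Squarish
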